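import Pool.Agent.Helper53.Pq.Goals

set_option autoImplicit false

/-!
# `GC0` (MP_705522_gt): `c0 = π/2` and a Gaussian integral
-/

namespace Pool.Agent.Helper65.Pq

open MeasureTheory Set
open Pool.Agent.Helper53.Pq
open Pool.Agent.Helper28.NO (Lf Ok)

/-! ### The Gaussian integral -/

theorem one_sub_exp_nonneg {x : ℝ} (hx : 0 ≤ x) : 0 ≤ 1 - Real.exp (-x) := by
  have := Real.exp_le_one_iff.mpr (neg_nonpos.mpr hx)
  linarith

theorem one_sub_exp_le (x : ℝ) : 1 - Real.exp (-x) ≤ x := by
  have := Real.add_one_le_exp (-x)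
  linarith

theorem gauss_deriv (b : ℝ) {t : ℝ} (ht : 0 < t) :
    HasDerivAt (fun t : ℝ => -((1 - Real.exp (-(b * t ^ 2))) / t))
      ((1 - Real.exp (-(b * t ^ 2))) / t ^ 2 - 2 * b * Real.exp (-b * t ^ 2)) t := by
  have h1 : HasDerivAt (fun t : ℝ => -(b * t ^ 2)) (-(b * (2 * t))) t := by
    have := ((hasDerivAt_pow 2 t).const_mul b).fun_neg
    simpa using this
  have h2 := (h1.exp.const_sub 1).div (hasDerivAt_id t) ht.ne'
  refine (h2.neg).congr_deriv ?_
  have ht' := ht.ne'
  simp only [id]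
  rw [show -b * t ^ 2 = -(b * t ^ 2) by ring]
  field_simp
  ring

theorem gauss_integrable {b : ℝ} (hb : 0 ≤ b) :
    IntegrableOn (fun t : ℝ => (1 - Real.exp (-(b * t ^ 2))) / t ^ 2) (Ioi 0) := by
  have hm : Measurable (fun t : ℝ => (1 - Real.exp (-(b * t ^ 2))) / t ^ 2) := by fun_prop
  rw [← Ioc_union_Ioi_eq_Ioi (zero_le_one (α := ℝ))]
  refine IntegrableOn.union ?_ ?_
  · refine Integrable.mono' (g := fun _ => b) ?_ hm.aestronglyMeasurable ?_
    · exact integrableOn_const (by simp)
    · refine (ae_restrict_mem measurableSet_Ioc).mono fun t ht => ?_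
      have ht0 : 0 < t := ht.1
      have h0 : 0 ≤ b * t ^ 2 := by positivity
      rw [Real.norm_of_nonneg (div_nonneg (one_sub_exp_nonneg h0) (sq_nonneg t)),
        div_le_iff₀ (by positivity)]
      exact one_sub_exp_le _
  · have hi : IntegrableOn (fun t : ℝ => t ^ (-2 : ℝ)) (Ioi 1) :=
      integrableOn_Ioi_rpow_of_lt (by norm_num) one_pos
    refine Integrable.mono' hi hm.aestronglyMeasurable ?_
    refine (ae_restrict_mem measurableSet_Ioi).mono fun t ht => ?_
    have ht0 : 0 < t := lt_trans one_pos ht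
    have h0 : 0 ≤ b * t ^ 2 := by positivity
    rw [Real.norm_of_nonneg (div_nonneg (one_sub_exp_nonneg h0) (sq_nonneg t)),
      Real.rpow_neg ht0.le, Real.rpow_two, ← one_div]
    have := Real.exp_pos (-(b * t ^ 2))
    gcongr
    linarith

theorem gauss_integral {b : ℝ} (hb : 0 ≤ b) :
    ∫ t in Ioi (0 : ℝ), (1 - Real.exp (-(b * t ^ 2))) / t ^ 2 = √(Real.pi * b) := by
  rcases hb.eq_or_lt with rfl | hb
  · simp
  have hint := gauss_integrable hb.le
  have hg : IntegrableOn (fun t : ℝ => 2 * b * Real.exp (-b * t ^ 2)) (Ioi 0) :=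
    ((integrable_exp_neg_mul_sq hb).const_mul (2 * b)).integrableOn
  have hcont : ContinuousWithinAt (fun t : ℝ => -((1 - Real.exp (-(b * t ^ 2))) / t)) (Ici 0) 0 := by
    have e0 : -((1 - Real.exp (-(b * (0 : ℝ) ^ 2))) / 0) = 0 := by simp
    rw [ContinuousWithinAt, e0]
    have hlim : Filter.Tendsto (fun t : ℝ => -(b * t)) (nhdsWithin 0 (Ici 0)) (nhds 0) := by
      have : Filter.Tendsto (fun t : ℝ => -(b * t)) (nhds 0) (nhds (-(b * 0))) :=
        ((continuous_const.mul continuous_id).neg).tendsto 0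
      simpa using this.mono_left nhdsWithin_le_nhds
    refine tendsto_of_tendsto_of_tendsto_of_le_of_le' hlim tendsto_const_nhds ?_ ?_
    · filter_upwards [self_mem_nhdsWithin] with t ht
      rcases (mem_Ici.1 ht).eq_or_lt with h | h
      · subst h; simp
      · rw [neg_le_neg_iff, div_le_iff₀ h]
        have := one_sub_exp_le (b * t ^ 2)
        nlinarith
    · filter_upwards [self_mem_nhdsWithin] with t ht
      have h0 : 0 ≤ b * t ^ 2 := by positivity
      have := div_nonneg (one_sub_exp_nonneg h0) (mem_Ici.1 ht)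
      linarith
  have hinf : Filter.Tendsto (fun t : ℝ => -((1 - Real.exp (-(b * t ^ 2))) / t)) Filter.atTop
      (nhds 0) := by
    have hlim : Filter.Tendsto (fun t : ℝ => -(t⁻¹)) Filter.atTop (nhds 0) := by
      simpa using (tendsto_inv_atTop_zero (𝕜 := ℝ)).neg
    refine tendsto_of_tendsto_of_tendsto_of_le_of_le' hlim tendsto_const_nhds ?_ ?_
    · filter_upwards [Filter.eventually_gt_atTop 0] with t ht
      rw [neg_le_neg_iff, ← one_div]
      have := Real.exp_pos (-(b * t ^ 2))
      gcongr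
      linarith
    · filter_upwards [Filter.eventually_gt_atTop 0] with t ht
      have h0 : 0 ≤ b * t ^ 2 := by positivity
      have := div_nonneg (one_sub_exp_nonneg h0) ht.le
      linarith
  have key := integral_Ioi_of_hasDerivAt_of_tendsto hcont (fun t ht => gauss_deriv b ht)
    (hint.sub hg) hinf
  rw [integral_sub hint hg, integral_const_mul, integral_gaussian_Ioi] at key
  simp only [ne_eq, OfNat.ofNat_ne_zero, not_false_eq_true, zero_pow, mul_zero, neg_zero,
    Real.exp_zero, sub_self, zero_div] at key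
  have e : 2 * b * (√(Real.pi / b) / 2) = √(Real.pi * b) := by
    have h1 : Real.pi * b = (Real.pi / b) * b ^ 2 := by field_simp
    rw [h1, Real.sqrt_mul (by positivity), Real.sqrt_sq hb.le]
    ring
  linarith

/-! ### The constant `c0` -/

/-- The exponential law. -/
noncomputable def expo : Measure ℝ :=
  (volume.restrict (Ioi (0 : ℝ))).withDensity fun x => ENNReal.ofReal (Real.exp (-x))

theorem expo_meas : Measurable fun x : ℝ => ENNReal.ofReal (Real.exp (-x)) := by fun_prop

theorem integral_expo (f : ℝ → ℝ) : ∫ x, f x ∂expo = ∫ x in Ioi (0 : ℝ), Real.exp (-x) * f x := by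
  rw [expo, integral_withDensity_eq_integral_toReal_smul expo_meas (by simp)]
  refine integral_congr_ae (Filter.Eventually.of_forall fun x => ?_)
  simp [ENNReal.toReal_ofReal (Real.exp_pos _).le]

theorem integrable_expo {f : ℝ → ℝ} (h : IntegrableOn (fun x => Real.exp (-x) * f x) (Ioi 0)) :
    Integrable f expo := by
  rw [expo, integrable_withDensity_iff_integrable_smul' expo_meas (by simp)]
  refine h.congr (Filter.Eventually.of_forall fun x => ?_)
  simp [ENNReal.toReal_ofReal (Real.exp_pos _).le]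

instance : IsProbabilityMeasure expo := by
  refine ⟨?_⟩
  rw [expo, withDensity_apply _ MeasurableSet.univ, Measure.restrict_univ,
    ← ofReal_integral_eq_lintegral_ofReal (integrableOn_exp_neg_Ioi 0)
      (Filter.Eventually.of_forall fun x => (Real.exp_pos _).le), integral_exp_neg_Ioi_zero]
  simp

theorem int_abs : IntegrableOn (fun x : ℝ => Real.exp (-x) * |x|) (Ioi 0) ∧
    ∫ x in Ioi (0 : ℝ), Real.exp (-x) * |x| = 1 := by
  have h := Real.GammaIntegral_convergent (s := 2) (by norm_num)
  have hG := Real.Gamma_eq_integral (s := 2) (by norm_num)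
  have e : ∀ x ∈ Ioi (0 : ℝ), Real.exp (-x) * x ^ ((2 : ℝ) - 1) = Real.exp (-x) * |x| := by
    intro x hx
    rw [abs_of_pos hx]
    norm_num
  refine ⟨h.congr_fun e measurableSet_Ioi, ?_⟩
  rw [← setIntegral_congr_fun measurableSet_Ioi e, ← hG, Real.Gamma_two]

theorem char_expo (t : ℝ) : ∫ x, Real.cos (x * t) ∂expo = (1 + t ^ 2)⁻¹ := by
  rw [integral_expo]
  have ha : ((-1 : ℂ) + t * Complex.I).re < 0 := by simp
  have h := integral_exp_mul_complex_Ioi ha 0
  have hi := integrableOn_exp_mul_complex_Ioi ha 0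
  have hre := integral_re hi
  have e : ∀ x : ℝ, RCLike.re (Complex.exp (((-1 : ℂ) + t * Complex.I) * x)) =
      Real.exp (-x) * Real.cos (x * t) := by
    intro x
    rw [RCLike.re_eq_complex_re, Complex.exp_re]
    congr 1
    · simp
    · simp [mul_comm]
  simp only [e] at hre
  rw [hre, h, RCLike.re_eq_complex_re]
  simp only [Complex.ofReal_zero, mul_zero, Complex.exp_zero]
  rw [Complex.div_re]
  simp [Complex.normSq_apply]
  ring

theorem c0_eq : Pool.Agent.Helper13.Proj.c0 = Real.pi / 2 := by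
  have hc0 := Pool.Agent.Helper13.Proj.c0_pos
  have hL : ∀ ω : ℝ, Lf (fun t => Real.cos (ω * t)) = |ω| := Pool.Agent.Helper28.NO.Lf_cos
  have hm := Pool.Agent.Helper28.NO.mix expo (fun x t => Real.cos (x * t))
    (by unfold Function.uncurry; fun_prop) (fun x => Pool.Agent.Helper28.NO.ok_cos x) (by
      refine (integrable_expo int_abs.1).congr (Filter.Eventually.of_forall fun x => ?_)
      exact (hL x).symm)
  have h2 := hm.2
  have e1 : (fun t => ∫ ω, Real.cos (ω * t) ∂expo) = fun t : ℝ => (1 + t ^ 2)⁻¹ := by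
    ext t; exact char_expo t
  have e2 : ∫ ω, Lf (fun t => Real.cos (ω * t)) ∂expo = 1 := by
    simp_rw [hL]
    rw [integral_expo]
    exact int_abs.2
  rw [e1, e2, Lf] at h2
  have e3 : ∫ t in Ioi (0 : ℝ), (1 - (1 + t ^ 2)⁻¹) / t ^ 2 = Real.pi / 2 := by
    have := integral_Ioi_inv_one_add_sq (i := 0)
    rw [Real.arctan_zero, sub_zero] at this
    rw [← this]
    refine setIntegral_congr_fun measurableSet_Ioi fun t ht => ?_
    have ht' : (t : ℝ) ≠ 0 := (mem_Ioi.1 ht).ne'
    have : (1 + t ^ 2) ≠ 0 := by positivity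
    field_simp
    ring
  rw [e3, div_eq_one_iff_eq hc0.ne'] at h2
  exact h2.symm

/-- **GC0**. -/
theorem gC0 : GC0 := ⟨c0_eq, fun _ hb => ⟨gauss_integrable hb, gauss_integral hb⟩⟩

end Pool.Agent.Helper65.Pq
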